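import Pool.Agent.Helper62.HX.Stm

set_option autoImplicit false

open Polynomial Matrix Finset Filter NumberField IsDedekindDomain

namespace Pool.Agent.Helper68.HX

open Pool.Agent.Helper62.BM Pool.Agent.Helper62.BW Pool.Agent.Helper62.BX Pool.Agent.Helper62.VX Pool.Agent.Helper62.HX

section coeffs

variable {R : Type} [CommRing R]

/-- convolution weights -/
lemma conv_refl (n : ℕ) (G : R[X]) (w : ℕ → R) :
    ∑ s ∈ range (n + 1), w s * (G.coeff s * G.coeff (n - s)) =
      ∑ s ∈ range (n + 1), w (n - s) * (G.coeff s * G.coeff (n - s)) := by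
  rw [← Finset.sum_range_reflect]
  apply Finset.sum_congr rfl
  intro s hs
  rw [Finset.mem_range] at hs
  have h1 : n + 1 - 1 - s = n - s := by omega
  have h2 : n - (n - s) = s := by omega
  rw [h1, h2]
  ring

/-- the sum over the upper half -/
noncomputable def TT (G : R[X]) (i j : ℕ) : R :=
  ∑ b ∈ range (j + 1), ((b + 1 : ℕ) : R) * (G.coeff (i + b + 2) * G.coeff (j - b))

lemma TT_eq (G : R[X]) (i j : ℕ) : TT G i j = ∑ s ∈ range (i + j + 2 + 1),
    (if i + 1 ≤ s then ((s - (i + 1) : ℕ) : R) else 0) * (G.coeff s * G.coeff (i + j + 2 - s)) := by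
  have h1 : i + j + 2 + 1 = (i + 2) + (j + 1) := by ring
  rw [h1, Finset.sum_range_add (n := i + 2) (m := j + 1)]
  have h2 : ∑ s ∈ range (i + 2), (if i + 1 ≤ s then ((s - (i + 1) : ℕ) : R) else 0) *
      (G.coeff s * G.coeff (i + j + 2 - s)) = 0 := by
    apply Finset.sum_eq_zero
    intro s hs
    rw [Finset.mem_range] at hs
    split_ifs with h
    · have : s - (i + 1) = 0 := by omega
      rw [this]; simp
    · simp
  rw [h2, zero_add]
  unfold TT
  apply Finset.sum_congr rfl
  intro b hb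
  rw [Finset.mem_range] at hb
  have h3 : i + 1 ≤ i + 2 + b := by omega
  have h4 : i + 2 + b - (i + 1) = b + 1 := by omega
  have h5 : i + j + 2 - (i + 2 + b) = j - b := by omega
  have h6 : i + 2 + b = i + b + 2 := by ring
  rw [if_pos h3, h4, h5, h6]

lemma TT_sub (G : R[X]) (i j : ℕ) :
    2 * TT G j i - 2 * TT G i j = ((i : R) - (j : R)) * (G ^ 2).coeff (i + j + 2) := by
  have hsq : (G ^ 2).coeff (i + j + 2) = ∑ s ∈ range (i + j + 2 + 1), G.coeff s * G.coeff (i + j + 2 - s) := by
    rw [sq, Polynomial.coeff_mul, Finset.Nat.sum_antidiagonal_eq_sum_range_succ_mk]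
  have h1 := TT_eq G j i
  rw [show j + i + 2 = i + j + 2 by ring] at h1
  have h2 := TT_eq G i j
  rw [conv_refl] at h2
  set n := i + j + 2 with hn
  have h3 : TT G j i - TT G i j = ∑ s ∈ range (n + 1), ((s : R) - ((j : R) + 1)) * (G.coeff s * G.coeff (n - s)) := by
    rw [h1, h2, ← Finset.sum_sub_distrib]
    apply Finset.sum_congr rfl
    intro s hs
    rw [Finset.mem_range] at hs
    rw [← sub_mul]
    congr 1
    by_cases hc : j + 1 ≤ s
    · rw [if_pos hc]
      by_cases hd : i + 1 ≤ n - s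
      · rw [if_pos hd]
        have h4 : s = j + 1 := by omega
        have h5 : n - s - (i + 1) = 0 := by omega
        rw [h5, h4]
        simp
      · rw [if_neg hd, Nat.cast_sub hc]
        push_cast
        ring
    · rw [if_neg hc]
      have hd : i + 1 ≤ n - s := by omega
      rw [if_pos hd]
      have h5 : n - s - (i + 1) = j + 1 - s := by omega
      rw [h5, Nat.cast_sub (by omega)]
      push_cast
      ring
  have h4 : TT G j i - TT G i j = ∑ s ∈ range (n + 1), (((i : R) + 1) - (s : R)) * (G.coeff s * G.coeff (n - s)) := by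
    rw [h3, conv_refl n G (fun s => (s : R) - ((j : R) + 1))]
    apply Finset.sum_congr rfl
    intro s hs
    rw [Finset.mem_range] at hs
    congr 1
    rw [Nat.cast_sub (by omega), hn]
    push_cast
    ring
  have h5 : 2 * TT G j i - 2 * TT G i j = (TT G j i - TT G i j) + (TT G j i - TT G i j) := by ring
  rw [h5]
  nth_rewrite 1 [h3]
  rw [h4, ← Finset.sum_add_distrib, hsq, Finset.mul_sum]
  apply Finset.sum_congr rfl
  intro s _
  ring

lemma bE_lo (g : ℕ) (G : R[X]) (m : ℕ) (hm : m < 2 * g) (h : m < g) (i : ℕ) :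
    (bE g G ⟨m, hm⟩).coeff i = if i = m then 1 else 0 := by
  unfold bE
  simp only
  rw [if_pos h, Polynomial.coeff_X_pow]

lemma bE_hi (g : ℕ) (G : R[X]) (m : ℕ) (hm : g + m < 2 * g) (i : ℕ) :
    (bE g G ⟨g + m, hm⟩).coeff i = if m ≤ i then G.coeff (i - m) else 0 := by
  unfold bE
  simp only
  rw [if_neg (by omega), show g + m - g = m by omega, Polynomial.coeff_X_pow_mul']

lemma sum_two {M : Type} [AddCommMonoid M] (g : ℕ) (f : Fin (2 * g) → M) :
    ∑ m, f m = ∑ m : Fin g, f (lo m) + ∑ m : Fin g, f (hi m) := by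
  have h : 2 * g = g + g := by ring
  have h1 : ∑ m, f m = ∑ m : Fin (g + g), f (Fin.cast h.symm m) :=
    (Fintype.sum_equiv (finCongr h.symm) _ _ (fun _ => rfl)).symm
  rw [h1, Fin.sum_univ_add]
  rfl

lemma part_a (g : ℕ) (G H : R[X]) (hG : G.natDegree = g + 1)
    (hH : H.natDegree ≤ g) (i j : ℕ) :
    ∑ m, ∑ n, (bE g G m).coeff i * QE g G H m n * (bE g G n).coeff j =
      ((i : R) - (j : R)) * (G ^ 2 + H).coeff (i + j + 2) := by
  have hG0 : ∀ k, g + 1 < k → G.coeff k = 0 := fun k hk => Polynomial.coeff_eq_zero_of_natDegree_lt (by omega)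
  have hH0 : ∀ k, g < k → H.coeff k = 0 := fun k hk => Polynomial.coeff_eq_zero_of_natDegree_lt (by omega)
  have hlo : ∀ (m : Fin g) (k : ℕ), (bE g G (lo m)).coeff k = if k = (m : ℕ) then 1 else 0 :=
    fun m k => bE_lo g G m _ m.2 k
  have hhi : ∀ (m : Fin g) (k : ℕ), (bE g G (hi m)).coeff k = if (m : ℕ) ≤ k then G.coeff (k - m) else 0 :=
    fun m k => bE_hi g G m _ k
  have qll : ∀ m n : Fin g, QE g G H (lo m) (lo n) = (((m : ℕ) : R) - ((n : ℕ) : R)) * H.coeff ((m : ℕ) + n + 2) := by
    intro m n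
    simp only [QE, Matrix.of_apply, lo]
    rw [if_pos m.2, if_pos n.2]
  have qlh : ∀ m n : Fin g, QE g G H (lo m) (hi n) = -(2 * ((((n : ℕ) + 1 : ℕ) : R) * G.coeff ((m : ℕ) + n + 2))) := by
    intro m n
    simp only [QE, Matrix.of_apply, lo, hi]
    rw [if_pos m.2, if_neg (by omega), show g + (n : ℕ) - g = n by omega]
  have qhl : ∀ m n : Fin g, QE g G H (hi m) (lo n) = 2 * ((((m : ℕ) + 1 : ℕ) : R) * G.coeff ((m : ℕ) + n + 2)) := by
    intro m n
    simp only [QE, Matrix.of_apply, lo, hi]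
    rw [if_neg (by omega), if_pos n.2, show g + (m : ℕ) - g = m by omega]
  have qhh : ∀ m n : Fin g, QE g G H (hi m) (hi n) = 0 := by
    intro m n
    simp only [QE, Matrix.of_apply, hi]
    rw [if_neg (by omega), if_neg (by omega)]
  -- the half sums
  have hT : ∀ i j : ℕ, ∑ b : Fin g, (((b : ℕ) + 1 : ℕ) : R) * (G.coeff (i + (b : ℕ) + 2) *
      (if (b : ℕ) ≤ j then G.coeff (j - b) else 0)) = TT G i j := by
    intro i j
    rw [Fin.sum_univ_eq_sum_range (fun b : ℕ => ((b + 1 : ℕ) : R) * (G.coeff (i + b + 2) *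
      (if b ≤ j then G.coeff (j - b) else 0))) g]
    have e1 : ∑ b ∈ range g, ((b + 1 : ℕ) : R) * (G.coeff (i + b + 2) *
        (if b ≤ j then G.coeff (j - b) else 0)) = ∑ b ∈ range (g + (j + 1)), ((b + 1 : ℕ) : R) *
        (G.coeff (i + b + 2) * (if b ≤ j then G.coeff (j - b) else 0)) := by
      apply Finset.sum_subset (Finset.range_subset_range.2 (by omega))
      intro b _ hb
      rw [Finset.mem_range] at hb
      rw [hG0 _ (by omega)]
      simp
    have e2 : TT G i j = ∑ b ∈ range (g + (j + 1)), ((b + 1 : ℕ) : R) *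
        (G.coeff (i + b + 2) * (if b ≤ j then G.coeff (j - b) else 0)) := by
      unfold TT
      have e3 : ∑ b ∈ range (j + 1), ((b + 1 : ℕ) : R) * (G.coeff (i + b + 2) * G.coeff (j - b)) =
          ∑ b ∈ range (j + 1), ((b + 1 : ℕ) : R) *
          (G.coeff (i + b + 2) * (if b ≤ j then G.coeff (j - b) else 0)) := by
        apply Finset.sum_congr rfl
        intro b hb
        rw [Finset.mem_range] at hb
        rw [if_pos (by omega)]
      rw [e3]
      apply Finset.sum_subset (Finset.range_subset_range.2 (by omega))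
      intro b _ hb
      rw [Finset.mem_range] at hb
      rw [if_neg (by omega)]
      simp
    rw [e1, e2]
  rw [sum_two]
  simp_rw [sum_two g (fun n => _ * QE g G H _ n * (bE g G n).coeff j)]
  simp only [qll, qlh, qhl, qhh, hlo, hhi]
  -- collapse
  have c1 : ∑ m : Fin g, ∑ n : Fin g, (if i = (m : ℕ) then (1 : R) else 0) *
      ((((m : ℕ) : R) - ((n : ℕ) : R)) * H.coeff ((m : ℕ) + n + 2)) * (if j = (n : ℕ) then (1 : R) else 0) =
      ((i : R) - (j : R)) * H.coeff (i + j + 2) := by
    by_cases hi' : i < g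
    · by_cases hj' : j < g
      · rw [Finset.sum_eq_single (⟨i, hi'⟩ : Fin g)]
        · rw [Finset.sum_eq_single (⟨j, hj'⟩ : Fin g)]
          · simp
          · intro n _ hn
            rw [if_neg (c := j = (n : ℕ)) (fun h => hn (Fin.ext h.symm))]
            simp
          · simp
        · intro m _ hm
          apply Finset.sum_eq_zero
          intro n _
          rw [if_neg (c := i = (m : ℕ)) (fun h => hm (Fin.ext h.symm))]
          simp
        · simp
      · rw [hH0 _ (by omega), mul_zero]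
        apply Finset.sum_eq_zero
        intro m _
        apply Finset.sum_eq_zero
        intro n _
        rw [if_neg (c := j = (n : ℕ)) (by have := n.2; omega), mul_zero]
    · rw [hH0 _ (by omega), mul_zero]
      apply Finset.sum_eq_zero
      intro m _
      apply Finset.sum_eq_zero
      intro n _
      rw [if_neg (c := i = (m : ℕ)) (by have := m.2; omega), zero_mul, zero_mul]
  have c2 : ∑ m : Fin g, ∑ n : Fin g, (if i = (m : ℕ) then (1 : R) else 0) *
      (-(2 * ((((n : ℕ) + 1 : ℕ) : R) * G.coeff ((m : ℕ) + n + 2)))) *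
      (if (n : ℕ) ≤ j then G.coeff (j - n) else 0) = -(2 * TT G i j) := by
    rw [Finset.sum_comm, ← hT i j, Finset.mul_sum, ← Finset.sum_neg_distrib]
    apply Finset.sum_congr rfl
    intro n _
    by_cases hi' : i < g
    · rw [Finset.sum_eq_single (⟨i, hi'⟩ : Fin g)]
      · simp only [if_true]
        ring
      · intro m _ hm
        rw [if_neg (c := i = (m : ℕ)) (fun h => hm (Fin.ext h.symm))]
        simp
      · simp
    · rw [hG0 (i + (n : ℕ) + 2) (by omega)]
      simp only [zero_mul, mul_zero, neg_zero]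
      apply Finset.sum_eq_zero
      intro m _
      rw [if_neg (c := i = (m : ℕ)) (by have := m.2; omega), zero_mul, zero_mul]
  have c3 : ∑ m : Fin g, ∑ n : Fin g, (if (m : ℕ) ≤ i then G.coeff (i - m) else 0) *
      (2 * ((((m : ℕ) + 1 : ℕ) : R) * G.coeff ((m : ℕ) + n + 2))) *
      (if j = (n : ℕ) then (1 : R) else 0) = 2 * TT G j i := by
    rw [← hT j i, Finset.mul_sum]
    apply Finset.sum_congr rfl
    intro m _
    by_cases hj' : j < g
    · rw [Finset.sum_eq_single (⟨j, hj'⟩ : Fin g)]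
      · simp only [if_true]
        rw [show (m : ℕ) + j + 2 = j + m + 2 by ring]
        ring
      · intro n _ hn
        rw [if_neg (c := j = (n : ℕ)) (fun h => hn (Fin.ext h.symm))]
        simp
      · simp
    · rw [hG0 (j + (m : ℕ) + 2) (by omega)]
      simp only [zero_mul, mul_zero]
      apply Finset.sum_eq_zero
      intro n _
      rw [if_neg (c := j = (n : ℕ)) (by have := n.2; omega), mul_zero]
  rw [Finset.sum_add_distrib, Finset.sum_add_distrib, c1, c2, c3, Polynomial.coeff_add, mul_add, ← TT_sub]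
  simp only [mul_zero, zero_mul, Finset.sum_const_zero]
  ring

end coeffs

section dets

lemma antiT {R : Type} [CommRing R] (g : ℕ) (G H : R[X]) : (QE g G H)ᵀ = -QE g G H := by
  ext m n
  simp only [Matrix.transpose_apply, Matrix.neg_apply, QE, Matrix.of_apply]
  by_cases hm : (m : ℕ) < g
  · by_cases hn : (n : ℕ) < g
    · rw [if_pos hn, if_pos hm, if_pos hm, if_pos hn, show (n : ℕ) + m + 2 = m + n + 2 by ring]
      ring
    · rw [if_neg hn, if_pos hm, if_pos hm, if_neg hn, show (n : ℕ) - g + m + 2 = m + (n - g) + 2 by ring]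
      ring
  · by_cases hn : (n : ℕ) < g
    · rw [if_pos hn, if_neg hm, if_neg hm, if_pos hn, show (n : ℕ) + (m - g) + 2 = m - g + n + 2 by ring]
    · rw [if_neg hn, if_neg hm, if_neg hm, if_neg hn]
      ring

lemma hihi {R : Type} [CommRing R] (g : ℕ) (G H : R[X]) :
    (QE g G H).submatrix (hi : Fin g → Fin (2 * g)) hi = 0 := by
  ext m n
  simp only [QE, Matrix.submatrix_apply, Matrix.of_apply, hi]
  rw [if_neg (by omega), if_neg (by omega)]
  rfl

/-- the determinant of the antitriangular block -/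
lemma det_lohi {A : Type} [CommRing A] [IsDomain A] [CharZero A] (g : ℕ) (G H : A[X][X]) (hm : G.Monic)
    (hG : G.natDegree = g + 1) : ∃ δ : A, δ ≠ 0 ∧
    ((QE g G H).submatrix (lo : Fin g → Fin (2 * g)) hi).det = Polynomial.C δ := by
  set B := (QE g G H).submatrix (lo : Fin g → Fin (2 * g)) hi with hB
  have hBe : ∀ m n : Fin g, B m n = -(2 * ((((n : ℕ) + 1 : ℕ) : A[X]) * G.coeff ((m : ℕ) + n + 2))) := by
    intro m n
    simp only [hB, QE, Matrix.submatrix_apply, Matrix.of_apply, lo, hi]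
    rw [if_pos m.2, if_neg (by omega), show g + (n : ℕ) - g = n by omega]
  have hG0 : ∀ k, g + 1 < k → G.coeff k = 0 := fun k hk => Polynomial.coeff_eq_zero_of_natDegree_lt (by omega)
  have hG1 : G.coeff (g + 1) = 1 := by rw [← hG]; exact hm.coeff_natDegree
  set B' := B.submatrix id (Fin.revPerm : Equiv.Perm (Fin g)) with hB'
  have hB'e : ∀ m n : Fin g, B' m n = B m n.rev := fun m n => rfl
  have htri : B'.BlockTriangular id := by
    intro m n hmn
    have hmn' : (n : ℕ) < m := hmn
    rw [hB'e, hBe, hG0]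
    · simp
    · rw [Fin.val_rev]
      have := n.2
      have := m.2
      omega
  have hdet' : B'.det = Polynomial.C (∏ m : Fin g, (-(2 * (((g - (m : ℕ) : ℕ) : A))))) := by
    rw [Matrix.det_of_isUpperTriangular htri, map_prod]
    apply Finset.prod_congr rfl
    intro m _
    have h1 : ((m : ℕ) + (m.rev : ℕ) + 2) = g + 1 := by
      rw [Fin.val_rev]
      have := m.2
      omega
    have h2 : ((m.rev : ℕ) + 1) = g - m := by
      rw [Fin.val_rev]
      have := m.2
      omega
    rw [hB'e, hBe, h1, hG1, h2, mul_one, map_neg, map_mul, map_natCast, map_ofNat]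
  have hs := Matrix.det_permute' (Fin.revPerm : Equiv.Perm (Fin g)) B
  rw [← hB', hdet'] at hs
  have hsg : ∀ σ : Equiv.Perm (Fin g), (((Equiv.Perm.sign σ : ℤˣ) : ℤ) : A[X]) * (((Equiv.Perm.sign σ : ℤˣ) : ℤ) : A[X]) = 1 := by
    intro σ
    rcases Int.units_eq_one_or (Equiv.Perm.sign σ) with h | h <;> simp [h]
  refine ⟨(((Equiv.Perm.sign (Fin.revPerm : Equiv.Perm (Fin g)) : ℤˣ) : ℤ) : A) *
    ∏ m : Fin g, (-(2 * (((g - (m : ℕ) : ℕ) : A)))), ?_, ?_⟩
  · apply mul_ne_zero
    · rcases Int.units_eq_one_or (Equiv.Perm.sign (Fin.revPerm : Equiv.Perm (Fin g))) with h | h <;> simp [h]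
    · rw [Finset.prod_ne_zero_iff]
      intro m _
      rw [neg_ne_zero]
      apply mul_ne_zero two_ne_zero
      have := m.2
      exact Nat.cast_ne_zero.2 (by omega)
  · rw [map_mul, map_intCast, hs, ← mul_assoc, hsg, one_mul]

lemma det_QE {A : Type} [CommRing A] [IsDomain A] [CharZero A] (g : ℕ) (G H : A[X][X]) (hm : G.Monic)
    (hG : G.natDegree = g + 1) : ∃ δ : A, δ ≠ 0 ∧ (QE g G H).det = Polynomial.C δ := by
  obtain ⟨δ', h0, hd⟩ := det_lohi g G H hm hG
  set Q := QE g G H with hQ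
  set B := Q.submatrix (lo : Fin g → Fin (2 * g)) hi with hB
  have hC : Q.submatrix (hi : Fin g → Fin (2 * g)) lo = -Bᵀ := by
    refine Matrix.ext fun m n => ?_
    have := congrFun (congrFun (antiT g G H) (lo n)) (hi m)
    simp only [Matrix.transpose_apply, Matrix.neg_apply] at this
    simp only [Matrix.submatrix_apply, Matrix.neg_apply, Matrix.transpose_apply, hB, hQ]
    exact this
  have hh : 2 * g = g + g := by ring
  let e : Fin g ⊕ Fin g ≃ Fin (2 * g) := finSumFinEquiv.trans (finCongr hh.symm)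
  have he1 : ∀ i : Fin g, e (Sum.inl i) = lo i := fun i => rfl
  have he2 : ∀ i : Fin g, e (Sum.inr i) = hi i := fun i => rfl
  have h1 : Q.submatrix e (e ∘ (Equiv.sumComm (Fin g) (Fin g))) =
      Matrix.fromBlocks B (Q.submatrix (lo : Fin g → Fin (2 * g)) lo) 0 (-Bᵀ) := by
    refine Matrix.ext fun m n => ?_
    rcases m with m | m <;> rcases n with n | n
    · rfl
    · rfl
    · exact congrFun (congrFun (hihi g G H) m) n
    · exact congrFun (congrFun hC m) n
  have h2 : (Q.submatrix e (e ∘ (Equiv.sumComm (Fin g) (Fin g)))).det =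
      (((Equiv.Perm.sign (Equiv.sumComm (Fin g) (Fin g)) : ℤˣ) : ℤ) : A[X]) * Q.det := by
    rw [← Matrix.det_submatrix_equiv_self e Q, ← Matrix.det_permute']
    rfl
  have h3 : (-Bᵀ).det = Polynomial.C ((-1) ^ g * δ') := by
    rw [Matrix.det_neg, Matrix.det_transpose, hd, Fintype.card_fin]
    simp
  rw [h1, Matrix.det_fromBlocks_zero₂₁, hd, h3] at h2
  have hsg : ∀ σ : Equiv.Perm (Fin g ⊕ Fin g), (((Equiv.Perm.sign σ : ℤˣ) : ℤ) : A[X]) * (((Equiv.Perm.sign σ : ℤˣ) : ℤ) : A[X]) = 1 := by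
    intro σ
    rcases Int.units_eq_one_or (Equiv.Perm.sign σ) with h | h <;> simp [h]
  refine ⟨(((Equiv.Perm.sign (Equiv.sumComm (Fin g) (Fin g)) : ℤˣ) : ℤ) : A) * (δ' * ((-1) ^ g * δ')), ?_, ?_⟩
  · apply mul_ne_zero
    · rcases Int.units_eq_one_or (Equiv.Perm.sign (Equiv.sumComm (Fin g) (Fin g))) with h | h <;> simp [h]
    · exact mul_ne_zero h0 (mul_ne_zero (pow_ne_zero _ (by simp)) h0)
  · rw [map_mul, map_intCast, map_mul Polynomial.C δ', h2, ← mul_assoc, hsg, one_mul]

end dets

theorem h_QE : H_QE := by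
  constructor
  · intro R _ g G H _ _ hG hH i j
    exact part_a g G H hG hH i j
  · intro A _ _ _ g _ G H hm hG _
    obtain ⟨δ, h1, h2⟩ := det_QE g G H hm hG
    obtain ⟨δ', h3, h4⟩ := det_lohi g G H hm hG
    exact ⟨antiT g G H, hihi g G H, δ, δ', h1, h3, h2, h4⟩

end Pool.Agent.Helper68.HX
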